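import Pool.Agent.Q72.EG.Stm2
import Pool.Agent.W333.ECV.A

/-! Project EG (helper72), JOB FLD: the function field of a variety. -/

set_option autoImplicit false
set_option linter.style.haveILetI false

namespace Pool.Agent.Q98.EG

open MvPolynomial Pool.Agent.Q72.EG Pool.Agent.W333.ECV

section general

variable {K L σ : Type} [Field K] [Field L] [Algebra K L] [Finite σ]

/-- upper bound for the transcendence degree -/
theorem trdeg_le_of_dep (ξ : σ → L) (hg : IntermediateField.adjoin K (Set.range ξ) = ⊤) (d : ℕ)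
    (h : ∀ J : Finset σ, J.card = d + 1 → ¬ AlgebraicIndependent K (fun j : J => ξ j)) :
    Algebra.trdeg K L ≤ d := by
  classical
  haveI : Algebra.IsAlgebraic (Algebra.adjoin K (Set.range ξ)) L := by
    rw [← IntermediateField.isAlgebraic_adjoin_iff_top, hg]
    exact ⟨fun z => isAlgebraic_algebraMap (⟨z, trivial⟩ : (⊤ : IntermediateField K L))⟩
  obtain ⟨t, ht, hb⟩ := exists_isTranscendenceBasis_subset (R := K) (A := L) (Set.range ξ)
  have htf : t.Finite := (Set.finite_range ξ).subset ht
  choose idx hidx using fun u : t => ht u.2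
  have hinj : Function.Injective idx := by
    intro u v huv
    apply Subtype.ext
    rw [← hidx u, ← hidx v, huv]
  haveI : Fintype t := htf.fintype
  set S : Finset σ := Finset.univ.image idx with hS
  have hSc : S.card = Fintype.card t := by
    rw [hS, Finset.card_image_of_injective _ hinj, Finset.card_univ]
  rw [← hb.cardinalMk_eq_trdeg, Cardinal.mk_fintype]
  by_contra hcon
  have h1 : d + 1 ≤ S.card := by
    rw [hSc]
    by_contra h2
    apply hcon
    exact_mod_cast (by omega : Fintype.card t ≤ d)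
  obtain ⟨J, hJS, hJc⟩ := Finset.exists_subset_card_eq h1
  apply h J hJc
  have hmem : ∀ j : J, ξ j ∈ t := by
    rintro ⟨j, hj⟩
    obtain ⟨u, -, rfl⟩ := Finset.mem_image.mp (hJS hj)
    show ξ (idx u) ∈ t
    rw [hidx u]; exact u.2
  let κ : J → t := fun j => ⟨ξ j, hmem j⟩
  have hκ : Function.Injective κ := by
    rintro ⟨j, hj⟩ ⟨k, hk⟩ h
    obtain ⟨u, -, rfl⟩ := Finset.mem_image.mp (hJS hj)
    obtain ⟨v, -, rfl⟩ := Finset.mem_image.mp (hJS hk)
    have h6 : ξ (idx u) = ξ (idx v) := congrArg Subtype.val h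
    have h7 : u = v := by
      apply Subtype.ext
      rw [← hidx u, ← hidx v, h6]
    subst h7
    rfl
  exact hb.1.comp κ hκ

/-- one transcendental element in transcendence degree one -/
theorem alg_of_trdeg_le_one (h1 : Algebra.trdeg K L ≤ 1) (f g : L) (hf : Transcendental K f) :
    IsAlgebraic (IntermediateField.adjoin K {f}) g := by
  have h2 : AlgebraicIndependent K (fun _ : Unit => f) :=
    (algebraicIndependent_unique_type_iff (x := fun _ : Unit => f)).mpr hf
  have h3 : IsTranscendenceBasis K (fun _ : Unit => f) :=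
    h2.isTranscendenceBasis_of_trdeg_le_of_finite (by simpa using h1)
  have h4 := h3.isAlgebraic_field
  rw [Set.range_const] at h4
  exact h4.isAlgebraic g

end general

section field

variable {n : ℕ} {E : Type} [Field E] [Algebra ℂ E] {x : Fin n → E} {P : MvPolynomial (Fin n) ℂ}

theorem exists_var (hP : Irreducible P) : ∃ i, i ∈ P.vars := by
  by_contra h
  push Not at h
  have h1 : P.vars = ∅ := Finset.eq_empty_of_forall_notMem h
  rw [vars_eq_empty_iff_eq_C] at h1
  apply hP.not_isUnit
  have h2 : P.coeff 0 ≠ 0 := by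
    intro h3
    apply hP.ne_zero
    rw [h1, h3, C_0]
  rw [h1]
  exact (IsUnit.mk0 _ h2).map C

theorem indep_others (hP : Irreducible P) (hx : ∀ g, aeval x g = 0 ↔ P ∣ g) (i : Fin n)
    (hi : i ∈ P.vars) : AlgebraicIndependent ℂ (fun l : {l // l ≠ i} => x l) := by
  rw [algebraicIndependent_iff]
  intro f hf
  have h1 : aeval x (rename Subtype.val f) = 0 := by
    rw [aeval_rename]
    exact hf
  rw [hx] at h1
  obtain ⟨Q, hQ⟩ := h1
  by_contra h0
  have h2 : rename Subtype.val f ≠ 0 := fun h =>
    h0 (rename_injective _ Subtype.val_injective (by rw [h, map_zero]))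
  have hQ0 : Q ≠ 0 := by
    rintro rfl
    rw [mul_zero] at hQ
    exact h2 hQ
  have h3 := degreeOf_mul_eq (n := i) hP.ne_zero hQ0
  rw [← hQ] at h3
  have h4 : degreeOf i (rename Subtype.val f) = 0 := by
    classical
    by_contra h5
    rw [← Ne, ← mem_vars_iff_degreeOf_ne_zero] at h5
    obtain ⟨a, ha, hai⟩ := Finset.mem_image.mp (vars_rename _ _ h5)
    exact a.2 hai
  have h6 := mem_vars_iff_degreeOf_ne_zero.mp hi
  omega

theorem trdeg_K (hP : Irreducible P) (hx : ∀ g, aeval x g = 0 ↔ P ∣ g) :
    ∃ d : ℕ, d + 1 = n ∧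
      Algebra.trdeg ℂ (IntermediateField.adjoin ℂ (Set.range x)) = (d : Cardinal) := by
  classical
  obtain ⟨i, hi⟩ := exists_var hP
  have hn : 0 < n := lt_of_le_of_lt (Nat.zero_le _) i.2
  refine ⟨n - 1, by omega, ?_⟩
  set K := IntermediateField.adjoin ℂ (Set.range x) with hK
  let x' : Fin n → K := fun i => ⟨x i, IntermediateField.subset_adjoin _ _ ⟨i, rfl⟩⟩
  have hadj : IntermediateField.adjoin ℂ (Set.range x') = ⊤ := by
    apply IntermediateField.lift_injective K
    rw [IntermediateField.lift_top, IntermediateField.lift_adjoin, ← Set.range_comp]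
    rfl
  apply le_antisymm
  · refine trdeg_le_of_dep x' hadj (n - 1) fun J hJ h => ?_
    have hJu : J = Finset.univ := by
      rw [← Finset.card_eq_iff_eq_univ, hJ, Fintype.card_fin]
      omega
    subst hJu
    rw [algebraicIndependent_iff] at h
    let e : Fin n → (Finset.univ : Finset (Fin n)) := fun i => ⟨i, Finset.mem_univ i⟩
    have he : Function.Injective e := fun a b hab => congrArg Subtype.val hab
    have h1 : aeval (fun j : (Finset.univ : Finset (Fin n)) => x' j) (rename e P) = 0 := by
      rw [aeval_rename]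
      apply Subtype.val_injective
      have h3 : K.val (aeval x' P) = aeval (fun k => K.val (x' k)) P :=
        MvPolynomial.comp_aeval_apply _ K.val P
      show K.val (aeval x' P) = _
      rw [h3]
      exact (hx P).mpr dvd_rfl
    have h2 := h _ h1
    exact hP.ne_zero (rename_injective _ he (by rw [h2, map_zero]))
  · have h1 := indep_others hP hx i hi
    have h2 : AlgebraicIndependent ℂ (fun l : {l // l ≠ i} => x' l) :=
      AlgebraicIndependent.of_comp K.val h1
    refine le_trans ?_ h2.cardinalMk_le_trdeg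
    rw [Cardinal.mk_fintype, Fintype.card_subtype_compl, Fintype.card_fin]
    simp

/-- the transcendence degree of a field over the field of the `x` -/
theorem trdeg_over (hP : Irreducible P) (hx : ∀ g, aeval x g = 0 ↔ P ∣ g)
    (hE : Algebra.trdeg ℂ E = (n : Cardinal)) :
    Algebra.trdeg (IntermediateField.adjoin ℂ (Set.range x)) E = 1 := by
  obtain ⟨d, hd, hK⟩ := trdeg_K hP hx
  have h3 := trdeg_add_eq (A := E) ℂ (IntermediateField.adjoin ℂ (Set.range x))
  rw [hK, hE] at h3
  have h4 : Algebra.trdeg (IntermediateField.adjoin ℂ (Set.range x)) E < Cardinal.aleph0 := by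
    refine lt_of_le_of_lt ?_ (Cardinal.natCast_lt_aleph0 (n := n))
    rw [← h3]
    exact self_le_add_left _ _
  obtain ⟨r, hr⟩ := Cardinal.lt_aleph0.mp h4
  rw [hr] at h3 ⊢
  have h5 : d + r = n := by exact_mod_cast h3
  have h6 : r = 1 := by omega
  rw [h6]
  simp

theorem tr1 (h1 : Algebra.trdeg (IntermediateField.adjoin ℂ (Set.range x)) E = 1) : Tr1 x := by
  intro f g hf
  have h2 := alg_of_trdeg_le_one h1.le f g hf
  have h3 : IsAlgebraic (IntermediateField.restrictScalars ℂ
      (IntermediateField.adjoin (IntermediateField.adjoin ℂ (Set.range x)) {f})) g := h2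
  rw [IntermediateField.adjoin_adjoin_left, Set.union_singleton] at h3
  exact h3

theorem exists_tr {y : Fin n → E}
    (htop : IntermediateField.adjoin ℂ (Set.range (Sum.elim x y)) = ⊤)
    (h1 : Algebra.trdeg (IntermediateField.adjoin ℂ (Set.range x)) E = 1) :
    ∃ l, Transcendental (IntermediateField.adjoin ℂ (Set.range x)) (y l) := by
  by_contra hcon
  have hy : ∀ l, IsAlgebraic (IntermediateField.adjoin ℂ (Set.range x)) (y l) := by
    intro l
    by_contra h
    exact hcon ⟨l, h⟩
  have h2 : IntermediateField.adjoin ℂ (Set.range (Sum.elim x y)) ≤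
      IntermediateField.restrictScalars ℂ
        (algebraicClosure (IntermediateField.adjoin ℂ (Set.range x)) E) := by
    rw [IntermediateField.adjoin_le_iff]
    rintro _ ⟨s, rfl⟩
    show (Sum.elim x y s) ∈ algebraicClosure (IntermediateField.adjoin ℂ (Set.range x)) E
    rw [mem_algebraicClosure_iff]
    rcases s with l | l
    · exact isAlgebraic_algebraMap
        (⟨x l, IntermediateField.subset_adjoin _ _ ⟨l, rfl⟩⟩ :
          IntermediateField.adjoin ℂ (Set.range x))
    · exact hy l
  rw [htop] at h2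
  have h3 : Algebra.IsAlgebraic (IntermediateField.adjoin ℂ (Set.range x)) E := by
    refine ⟨fun z => ?_⟩
    have h4 : z ∈ IntermediateField.restrictScalars ℂ
        (algebraicClosure (IntermediateField.adjoin ℂ (Set.range x)) E) := h2 trivial
    exact mem_algebraicClosure_iff.mp h4
  have h5 : Algebra.trdeg (IntermediateField.adjoin ℂ (Set.range x)) E = 0 :=
    trdeg_eq_zero
  rw [h5] at h1
  exact zero_ne_one h1

theorem sum_clear {R : Type} [CommRing R] (a : ℕ → R) (u v : R) (N : ℕ) :
    ∑ b ∈ Finset.range (N + 1), a b * (u * v) ^ b * v ^ (N - b) =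
      v ^ N * ∑ b ∈ Finset.range (N + 1), a b * u ^ b := by
  rw [Finset.mul_sum]
  refine Finset.sum_congr rfl fun b hb => ?_
  have h1 : b ≤ N := by
    rw [Finset.mem_range] at hb
    omega
  have h2 : v ^ N = v ^ b * v ^ (N - b) := by rw [← pow_add, Nat.add_sub_cancel' h1]
  rw [h2, mul_pow]
  ring

theorem prod_clear {K : Type} [Field K] (y : Fin n → K) (hy : ∀ l, y l ≠ 0) (m : Fin n → ℤ) :
    (∏ l, y l ^ m l) * ∏ l, y l ^ (-(m l)).toNat = ∏ l, y l ^ (m l).toNat := by
  rw [← Finset.prod_mul_distrib]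
  refine Finset.prod_congr rfl fun l _ => ?_
  conv_lhs => rw [← Int.toNat_sub_toNat_neg (m l)]
  rw [zpow_sub₀ (hy l), zpow_natCast, zpow_natCast, Int.toNat_sub_toNat_neg (m l)]
  exact div_mul_cancel₀ _ (pow_ne_zero _ (hy l))

theorem monAlg {y : Fin n → E} {V : Set (Fin n ⊕ Fin n → ℂ)}
    (hV : ∀ f, aeval (Sum.elim x y) f = 0 → ∀ p ∈ V, eval p f = 0)
    (hVn : ∀ p ∈ V, ∀ j, p (Sum.inr j) ≠ 0)
    (hx : ∀ g, aeval x g = 0 ↔ P ∣ g) (hy : ∀ l, y l ≠ 0) (m : Fin n → ℤ)
    (hu : IsAlgebraic (IntermediateField.adjoin ℂ (Set.range x)) (∏ l, y l ^ m l)) :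
    MonAlg V P m := by
  rw [IntermediateField.isAlgebraic_adjoin_iff] at hu
  obtain ⟨q, hq0, hq⟩ := hu
  have h1 : ∀ b, ∃ A : MvPolynomial (Fin n) ℂ, aeval x A = (q.coeff b : E) := by
    intro b
    have h2 : (q.coeff b : E) ∈ Algebra.adjoin ℂ (Set.range x) := (q.coeff b).2
    have h3 : ∀ u : E, u ∈ Algebra.adjoin ℂ (Set.range x) →
        ∃ A : MvPolynomial (Fin n) ℂ, aeval x A = u := by
      intro u hu
      rw [Algebra.adjoin_range_eq_range_aeval] at hu
      exact hu
    exact h3 _ h2
  choose A hA using h1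
  set N := q.natDegree with hN
  refine ⟨∑ b ∈ Finset.range (N + 1), Polynomial.monomial b (A b), ⟨N, ?_⟩, fun p hp => ?_⟩
  · rw [Polynomial.finsetSum_coeff, Finset.sum_eq_single N]
    · rw [Polynomial.coeff_monomial_same, ← hx, hA]
      have h3 : q.coeff N ≠ 0 := by
        rw [hN, Polynomial.coeff_natDegree]
        exact Polynomial.leadingCoeff_ne_zero.mpr hq0
      intro h4
      exact h3 (Subtype.ext h4)
    · intro b _ hb
      exact Polynomial.coeff_monomial_of_ne _ (Ne.symm hb)
    · intro h
      exact absurd (Finset.mem_range.mpr (Nat.lt_succ_self N)) h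
  · have h5 : ∑ b ∈ Finset.range (N + 1), aeval x (A b) * (∏ l, y l ^ m l) ^ b = 0 := by
      rw [Polynomial.aeval_eq_sum_range] at hq
      rw [← hq]
      refine Finset.sum_congr rfl fun b _ => ?_
      rw [hA, Algebra.smul_def]
      rfl
    have h6 : aeval (Sum.elim x y) (∑ b ∈ Finset.range (N + 1), rename Sum.inl (A b) *
        (∏ l : Fin n, X (Sum.inr l) ^ (m l).toNat) ^ b *
        (∏ l : Fin n, X (Sum.inr l) ^ (-(m l)).toNat) ^ (N - b)) = 0 := by
      rw [map_sum]
      simp only [map_mul, map_pow, map_prod, aeval_rename, aeval_X, Sum.elim_comp_inl,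
        Sum.elim_inr]
      rw [← prod_clear y hy m, sum_clear, h5, mul_zero]
    have h7 := hV _ h6 p hp
    rw [map_sum] at h7
    simp only [map_mul, map_pow, map_prod, eval_rename, eval_X] at h7
    rw [← prod_clear (fun l => p (Sum.inr l)) (hVn p hp) m, sum_clear] at h7
    have h8 : (∏ l, p (Sum.inr l) ^ (-(m l)).toNat) ^ N ≠ 0 :=
      pow_ne_zero _ (Finset.prod_ne_zero_iff.mpr fun l _ => pow_ne_zero _ (hVn p hp l))
    have h9 := (mul_eq_zero.mp h7).resolve_left h8
    rw [Polynomial.map_sum, Polynomial.eval_finsetSum]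
    rw [← h9]
    refine Finset.sum_congr rfl fun b _ => ?_
    rw [Polynomial.map_monomial, Polynomial.eval_monomial]
    rfl

end field

theorem fld : S_fld := by
  classical
  intro n I V P hV hdim hproj
  obtain ⟨hI, hVeq, hne⟩ := hV
  obtain ⟨hP, hPf⟩ := hproj
  obtain ⟨E, iE, aE, ξ, hξ, hgen⟩ := exists_field I hI
  set x : Fin n → E := fun i => ξ (Sum.inl i) with hx
  set y : Fin n → E := fun i => ξ (Sum.inr i) with hy
  have hxy : Sum.elim x y = ξ := by
    funext i
    rcases i with i | i <;> rfl
  have hVmem : ∀ p : Fin n ⊕ Fin n → ℂ, p ∈ V ↔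
      (∀ f ∈ I, eval p f = 0) ∧ ∀ j : Fin n, p (Sum.inr j) ≠ 0 := by
    intro p; rw [hVeq]; rfl
  obtain ⟨p0, hp0⟩ := hne
  have hPV : ∀ f, f ∈ I ↔ ∀ p ∈ V, eval p f = 0 := by
    intro f
    constructor
    · intro hf p hp
      exact ((hVmem p).mp hp).1 f hf
    · intro hf
      refine nullst I hI (∏ i : Fin n, X (Sum.inr i)) ?_ f ?_
      · intro hg
        have := ((hVmem p0).mp hp0).1 _ hg
        rw [map_prod, Finset.prod_eq_zero_iff] at this
        obtain ⟨i, -, hi⟩ := this
        rw [eval_X] at hi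
        exact ((hVmem p0).mp hp0).2 i hi
      · intro p hp hg
        apply hf
        rw [hVmem]
        refine ⟨hp, fun j hj => hg ?_⟩
        rw [map_prod]
        apply Finset.prod_eq_zero (Finset.mem_univ j)
        rw [eval_X]; exact hj
  have ha : ∀ f, aeval (Sum.elim x y) f = 0 ↔ ∀ p ∈ V, eval p f = 0 := by
    intro f
    rw [hxy]
    exact (hξ f).trans (hPV f)
  have hxP : ∀ g : MvPolynomial (Fin n) ℂ, aeval x g = 0 ↔ P ∣ g := by
    intro g
    rw [← hPf]
    have h1 : aeval x g = aeval (Sum.elim x y) (rename Sum.inl g) := by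
      rw [aeval_rename, Sum.elim_comp_inl]
    rw [h1, ha]
    refine forall₂_congr fun p _ => ?_
    rw [eval_rename]
    rfl
  have hyn : ∀ l, y l ≠ 0 := by
    intro l h
    have h1 := (ha (X (Sum.inr l))).mp (by rw [aeval_X]; exact h) p0 hp0
    rw [eval_X] at h1
    exact ((hVmem p0).mp hp0).2 l h1
  have htop : IntermediateField.adjoin ℂ (Set.range (Sum.elim x y)) = ⊤ := by
    rw [eq_top_iff]
    intro u _
    have hmem : ∀ f : MvPolynomial (Fin n ⊕ Fin n) ℂ,
        aeval ξ f ∈ IntermediateField.adjoin ℂ (Set.range (Sum.elim x y)) := by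
      intro f
      rw [hxy]
      induction f using MvPolynomial.induction_on with
      | C a => rw [aeval_C]; exact IntermediateField.algebraMap_mem _ _
      | add p q hp hq => rw [map_add]; exact add_mem hp hq
      | mul_X p i hp =>
        rw [map_mul, aeval_X]
        exact mul_mem hp (IntermediateField.subset_adjoin _ _ ⟨i, rfl⟩)
    obtain ⟨f, g, hg, hu⟩ := hgen u
    rw [eq_div_of_mul_eq hg hu]
    exact div_mem (hmem f) (hmem g)
  have hind : ∀ J : Finset (Fin n ⊕ Fin n), IndepV V J ↔
      AlgebraicIndependent ℂ (fun j : J => Sum.elim x y j) := by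
    intro J
    constructor
    · intro h
      rw [algebraicIndependent_iff]
      intro f hf
      have h1 : rename (Subtype.val : J → Fin n ⊕ Fin n) f = 0 := by
        apply h
        · intro k hk
          obtain ⟨b, -, rfl⟩ := Finset.mem_image.mp (vars_rename Subtype.val f hk)
          exact b.2
        · rw [← ha, aeval_rename]
          exact hf
      exact rename_injective _ Subtype.val_injective (by rw [h1, map_zero])
    · intro h f hfv hf
      rw [← ha] at hf
      rw [algebraicIndependent_iff] at h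
      obtain ⟨g, hg⟩ := exists_rename_eq_of_vars_subset_range f (Subtype.val : J → Fin n ⊕ Fin n)
        Subtype.val_injective (by
          rw [Subtype.range_coe]
          exact_mod_cast hfv)
      have h1 : g = 0 := by
        apply h
        rw [← hg, aeval_rename] at hf
        exact hf
      rw [← hg, h1, map_zero]
  obtain ⟨⟨J, hJc, hJ⟩, hdim2⟩ := hdim
  have hEn : Algebra.trdeg ℂ E = (n : Cardinal) := by
    apply le_antisymm
    · exact trdeg_le_of_dep (Sum.elim x y) htop n fun J hJ h => hdim2 J hJ ((hind J).mpr h)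
    · refine le_trans ?_ ((hind J).mp hJ).cardinalMk_le_trdeg
      rw [Cardinal.mk_coe_finset, hJc]
  have h1 := trdeg_over hP hxP hEn
  refine ⟨E, iE, aE, x, y, ha, ?_, hxP, hyn, tr1 h1, exists_tr htop h1, fun m hm h => hm ?_⟩
  · intro p
    rw [hVmem]
    refine and_congr_left fun _ => ?_
    constructor
    · intro h g hg
      rw [hxy, hξ] at hg
      exact h g hg
    · intro h f hf
      apply h
      rw [hxy, hξ]
      exact hf
  · exact monAlg (fun f hf => (ha f).mp hf) (fun p hp => ((hVmem p).mp hp).2) hxP hyn m h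

end Pool.Agent.Q98.EG
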