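import Pool.Agent.Q72.EG.Stm2

/-! Project EG (helper72), JOB NRE. -/

set_option autoImplicit false

namespace Pool.Agent.Q98.EG

open MvPolynomial Pool.Agent.Q72.EG

/-- clearing denominators of a rational vector -/
theorem exists_int {n : ℕ} (m : Fin n → ℚ) :
    ∃ (N : ℕ) (k : Fin n → ℤ), 0 < N ∧ ∀ l, (k l : ℚ) = N * m l := by
  refine ⟨∏ l, (m l).den, fun l => (m l).num * ∏ j ∈ Finset.univ.erase l, ((m j).den : ℤ),
    Finset.prod_pos fun l _ => (m l).den_pos, fun l => ?_⟩
  have h1 := Rat.num_div_den (m l)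
  have h2 : ((m l).den : ℚ) ≠ 0 := by exact_mod_cast (m l).den_ne_zero
  rw [← Finset.mul_prod_erase _ _ (Finset.mem_univ l)]
  push_cast
  nth_rewrite 3 [← h1]
  field_simp

/-- a rational subspace of codimension at most one contains a hyperplane -/
theorem exists_normal {n : ℕ} (hn : 0 < n) (A : Set (Fin n → ℚ))
    (h : ∀ m m' : Fin n → ℤ, LinearIndependent ℤ ![m, m'] →
      (∃ a ∈ A, ∑ l, (m l : ℚ) * a l ≠ 0) ∨ ∃ a ∈ A, ∑ l, (m' l : ℚ) * a l ≠ 0) :
    ∃ m : Fin n → ℚ, m ≠ 0 ∧ ∀ v : Fin n → ℚ, ∑ l, m l * v l = 0 → v ∈ Submodule.span ℚ A := by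
  classical
  set S := Submodule.span ℚ A with hS
  -- functionals as vectors
  let vec : Module.Dual ℚ (Fin n → ℚ) → Fin n → ℚ := fun φ l => φ (fun j => if l = j then 1 else 0)
  have hvec : ∀ (φ : Module.Dual ℚ (Fin n → ℚ)) (v : Fin n → ℚ), φ v = ∑ l, vec φ l * v l := by
    intro φ v
    rw [LinearMap.pi_apply_eq_sum_univ φ v]
    exact Finset.sum_congr rfl fun l _ => by rw [smul_eq_mul, mul_comm]
  have hle : Module.finrank ℚ S.dualAnnihilator ≤ 1 := by
    by_contra hcon
    rw [not_le] at hcon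
    obtain ⟨φ, hφ⟩ : ∃ φ : S.dualAnnihilator, φ ≠ 0 := by
      by_contra hall
      push Not at hall
      have : Subsingleton S.dualAnnihilator := ⟨fun a b => by rw [hall a, hall b]⟩
      rw [Module.finrank_zero_of_subsingleton] at hcon
      omega
    obtain ⟨ψ, hψ⟩ := exists_linearIndependent_pair_of_one_lt_finrank hcon hφ
    rw [LinearIndependent.pair_iff] at hψ
    obtain ⟨N, m, hN, hm⟩ := exists_int (vec φ)
    obtain ⟨N', m', hN', hm'⟩ := exists_int (vec ψ)
    have hlin : LinearIndependent ℤ ![m, m'] := by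
      rw [LinearIndependent.pair_iff]
      intro s t hst
      have h1 : ((s * N : ℚ)) • φ + ((t * N' : ℚ)) • ψ = 0 := by
        apply Subtype.ext
        apply LinearMap.ext
        intro v
        show (s * N : ℚ) * (φ : Module.Dual ℚ (Fin n → ℚ)) v +
          (t * N' : ℚ) * (ψ : Module.Dual ℚ (Fin n → ℚ)) v = 0
        rw [hvec, hvec, Finset.mul_sum, Finset.mul_sum, ← Finset.sum_add_distrib]
        refine Finset.sum_eq_zero fun l _ => ?_
        have h2 := congrFun hst l
        have h3 : (s : ℚ) * m l + t * m' l = 0 := by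
          have h4 : s * m l + t * m' l = 0 := h2
          exact_mod_cast h4
        rw [hm, hm'] at h3
        linear_combination v l * h3
      obtain ⟨h2, h3⟩ := hψ _ _ h1
      have hNq : (N : ℚ) ≠ 0 := by exact_mod_cast hN.ne'
      have hNq' : (N' : ℚ) ≠ 0 := by exact_mod_cast hN'.ne'
      have h4 := (mul_eq_zero.mp h2).resolve_right hNq
      have h5 := (mul_eq_zero.mp h3).resolve_right hNq'
      exact ⟨by exact_mod_cast h4, by exact_mod_cast h5⟩
    have hann : ∀ (φ : S.dualAnnihilator) (N : ℕ) (m : Fin n → ℤ), (∀ l, (m l : ℚ) =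
        N * vec φ l) → ∀ a ∈ A, ∑ l, (m l : ℚ) * a l = 0 := by
      intro φ N m hm a ha
      have h1 := (Submodule.mem_dualAnnihilator (φ : Module.Dual ℚ (Fin n → ℚ))).mp φ.2 a
        (Submodule.subset_span ha)
      rw [hvec] at h1
      calc ∑ l, (m l : ℚ) * a l = N * ∑ l, vec φ l * a l := by
            rw [Finset.mul_sum]
            exact Finset.sum_congr rfl fun l _ => by rw [hm]; ring
        _ = 0 := by rw [h1, mul_zero]
    rcases h m m' hlin with ⟨a, ha, h1⟩ | ⟨a, ha, h1⟩
    · exact h1 (hann φ N m hm a ha)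
    · exact h1 (hann ψ N' m' hm' a ha)
  obtain ⟨φ, hφ⟩ := finrank_le_one_iff.mp hle
  have hmem : ∀ v : Fin n → ℚ, (φ : Module.Dual ℚ (Fin n → ℚ)) v = 0 → v ∈ S := by
    intro v hv
    rw [← Subspace.dualAnnihilator_dualCoannihilator_eq (W := S),
      Submodule.mem_dualCoannihilator]
    intro ψ hψ
    obtain ⟨c, hc⟩ := hφ ⟨ψ, hψ⟩
    have h1 : ψ = c • (φ : Module.Dual ℚ (Fin n → ℚ)) := (congrArg Subtype.val hc).symm
    rw [h1, LinearMap.smul_apply, hv, smul_zero]
  by_cases h0 : vec φ = 0
  · refine ⟨fun _ => 1, fun h1 => ?_, fun v _ => hmem v ?_⟩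
    · have := congrFun h1 ⟨0, hn⟩
      exact one_ne_zero this
    · rw [hvec, h0]
      simp
  · refine ⟨vec φ, h0, fun v hv => hmem v ?_⟩
    rw [hvec]
    exact hv

/-- the translations which leave a polynomial invariant -/
def Inv {n : ℕ} (G : MvPolynomial (Fin n) ℂ) : Submodule ℂ (Fin n → ℂ) where
  carrier := {v | ∀ (x : Fin n → ℂ) (t : ℂ), eval (fun l => x l + t * v l) G = eval x G}
  zero_mem' := by
    intro x t
    simp
  add_mem' := by
    intro v w hv hw x t
    have h1 := hw (fun l => x l + t * v l) t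
    rw [hv x t] at h1
    rw [← h1]
    congr 2
    funext l
    simp only [Pi.add_apply]
    ring
  smul_mem' := by
    intro c v hv x t
    rw [← hv x (t * c)]
    congr 2
    funext l
    simp only [Pi.smul_apply, smul_eq_mul]
    ring

/-- an irreducible polynomial which is invariant under a hyperplane -/
theorem exists_affine {n : ℕ} (G : MvPolynomial (Fin n) ℂ) (hG : Irreducible G) (m : Fin n → ℂ)
    (i : Fin n) (hi : m i ≠ 0) (h : ∀ v : Fin n → ℂ, ∑ l, m l * v l = 0 → v ∈ Inv G) :
    ∃ c r : ℂ, c ≠ 0 ∧ G = C c * (∑ l, C (m l) * X l - C r) := by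
  classical
  set L : MvPolynomial (Fin n) ℂ := ∑ l, C (m l) * X l with hL
  have hLe : ∀ x : Fin n → ℂ, eval x L = ∑ l, m l * x l := by
    intro x
    rw [hL, map_sum]
    exact Finset.sum_congr rfl fun l _ => by rw [map_mul, eval_C, eval_X]
  set g : Polynomial ℂ := MvPolynomial.aeval
    (fun l => if l = i then Polynomial.C (m i)⁻¹ * Polynomial.X else 0) G with hg
  have hge : ∀ s : ℂ, g.eval s = eval (fun l => if l = i then (m i)⁻¹ * s else 0) G := by
    intro s
    have h1 : (Polynomial.aeval s : Polynomial ℂ →ₐ[ℂ] ℂ) g = MvPolynomial.aeval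
      (fun l => (Polynomial.aeval s : Polynomial ℂ →ₐ[ℂ] ℂ)
        (if l = i then Polynomial.C (m i)⁻¹ * Polynomial.X else 0)) G :=
      MvPolynomial.comp_aeval_apply _ _ G
    rw [Polynomial.coe_aeval_eq_eval] at h1
    rw [h1, MvPolynomial.aeval_eq_eval]
    congr 2
    funext l
    by_cases hl : l = i
    · simp [hl]
    · simp [hl]
  have hGL : G = Polynomial.aeval L g := by
    apply MvPolynomial.funext
    intro x
    have h1 : eval x (Polynomial.aeval L g) = g.eval (eval x L) := by
      have h2 : eval x (Polynomial.aeval L g) =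
          (MvPolynomial.aeval x : MvPolynomial (Fin n) ℂ →ₐ[ℂ] ℂ) (Polynomial.aeval L g) := by
        rw [MvPolynomial.aeval_eq_eval]
      rw [h2, ← Polynomial.aeval_algHom_apply, MvPolynomial.aeval_eq_eval,
        Polynomial.coe_aeval_eq_eval]
    rw [h1, hge, hLe]
    set s : ℂ := (m i)⁻¹ * ∑ l, m l * x l with hs
    have h3 : (fun l => x l - (if l = i then s else 0)) ∈ Inv G := by
      apply h
      simp only [mul_sub, Finset.sum_sub_distrib, mul_ite, mul_zero, Finset.sum_ite_eq',
        Finset.mem_univ, if_true]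
      rw [hs]
      field_simp
      ring
    have h4 := h3 (fun l => if l = i then s else 0) 1
    rw [← h4]
    congr 2
    funext l
    ring
  have hgd : g.degree ≠ 0 := by
    intro h0
    rw [Polynomial.eq_C_of_degree_eq_zero h0, Polynomial.aeval_C] at hGL
    have h1 : g.coeff 0 ≠ 0 := by
      intro h2
      rw [Polynomial.eq_C_of_degree_eq_zero h0, h2, Polynomial.C_0, Polynomial.degree_zero] at h0
      exact absurd h0 (by decide)
    apply hG.not_isUnit
    rw [hGL]
    exact (IsUnit.mk0 _ h1).map (algebraMap ℂ (MvPolynomial (Fin n) ℂ))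
  obtain ⟨r, hr⟩ := IsAlgClosed.exists_root g hgd
  obtain ⟨q, hq⟩ := Polynomial.dvd_iff_isRoot.mpr hr
  have h5 : G = (L - C r) * Polynomial.aeval L q := by
    rw [hGL, hq, map_mul, map_sub, Polynomial.aeval_X, Polynomial.aeval_C]
    rfl
  have h6 : ¬ IsUnit (L - C r) := by
    intro hu
    have h7 := hu.map (MvPolynomial.eval (fun l => if l = i then (m i)⁻¹ * r else 0))
    rw [map_sub, hLe, eval_C] at h7
    apply h7.ne_zero
    simp only [mul_ite, mul_zero, Finset.sum_ite_eq', Finset.mem_univ, if_true]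
    field_simp
    ring
  have h7 := (hG.isUnit_or_isUnit h5).resolve_left h6
  obtain ⟨c, hc, hc2⟩ := MvPolynomial.isUnit_iff_eq_C_of_isReduced.mp h7
  refine ⟨c, r, hc.ne_zero, ?_⟩
  rw [h5, hc2]
  ring

theorem homog_ne_zero {n : ℕ} {P : MvPolynomial (Fin n) ℂ} (hP : P ≠ 0) :
    homogeneousComponent P.totalDegree P ≠ 0 := by
  intro h
  obtain ⟨s, hs, hs2⟩ : ∃ s ∈ P.support, s.degree = P.totalDegree := by
    obtain ⟨s, hs, hs2⟩ := Finset.exists_mem_eq_sup P.support
      (by rwa [Finset.nonempty_iff_ne_empty, Ne, MvPolynomial.support_eq_empty])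
      (fun s => s.sum fun _ e => e)
    exact ⟨s, hs, hs2.symm⟩
  have h1 := congrArg (coeff s) h
  rw [coeff_homogeneousComponent, if_pos hs2, coeff_zero] at h1
  exact (mem_support_iff.mp hs) h1

theorem homog_smul {n : ℕ} {F : MvPolynomial (Fin n) ℂ} {d : ℕ} (hF : F.IsHomogeneous d) (s : ℂ)
    (x : Fin n → ℂ) : eval (s • x) F = s ^ d * eval x F := by
  rw [eval_eq, eval_eq, Finset.mul_sum]
  refine Finset.sum_congr rfl fun e he => ?_
  have h1 : ∑ i ∈ e.support, e i = d := by
    have h2 := hF (mem_support_iff.mp he)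
    have h3 : Finsupp.degree e = d := by
      rw [Finsupp.degree_eq_weight_one]
      exact h2
    exact h3
  simp only [Pi.smul_apply, smul_eq_mul, mul_pow, Finset.prod_mul_distrib,
    Finset.prod_pow_eq_pow_sum, h1]
  ring

theorem no_nonreal_factor {n : ℕ} {F G : MvPolynomial (Fin n) ℂ} {d : ℕ} (hF : F.IsHomogeneous d)
    (hF0 : F ≠ 0) (m : Fin n → ℂ) (i : Fin n) (hi : m i ≠ 0) (c r : ℂ)
    (hG : G = C c * (∑ l, C (m l) * X l - C r)) (hGF : G ∣ F) : r = 0 := by
  classical
  by_contra hr
  obtain ⟨Q, hQ⟩ := hGF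
  set L : MvPolynomial (Fin n) ℂ := ∑ l, C (m l) * X l with hL
  have hLe : ∀ x : Fin n → ℂ, eval x L = ∑ l, m l * x l := by
    intro x
    rw [hL, map_sum]
    exact Finset.sum_congr rfl fun l _ => by rw [map_mul, eval_C, eval_X]
  have h1 : ∀ x : Fin n → ℂ, eval x L = r → eval x F = 0 := by
    intro x hx
    rw [hQ, hG, map_mul, map_mul, map_sub, hx, eval_C, eval_C]
    ring
  have h2 : F * L = 0 := by
    apply MvPolynomial.funext
    intro x
    rw [map_mul, map_zero]
    by_cases hx : eval x L = 0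
    · rw [hx, mul_zero]
    · have h3 := h1 ((r / eval x L) • x) (by
        rw [hLe]
        simp only [Pi.smul_apply, smul_eq_mul]
        rw [Finset.sum_congr rfl fun l _ => (by ring :
          m l * (r / eval x L * x l) = r / eval x L * (m l * x l)), ← Finset.mul_sum, ← hLe]
        field_simp)
      rw [homog_smul hF] at h3
      have h4 : (r / eval x L) ^ d ≠ 0 := pow_ne_zero _ (div_ne_zero hr hx)
      rw [(mul_eq_zero.mp h3).resolve_left h4, zero_mul]
  rcases mul_eq_zero.mp h2 with h3 | h3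
  · exact hF0 h3
  · have h4 := hLe (fun l => if l = i then 1 else 0)
    rw [h3, map_zero] at h4
    simp only [mul_ite, mul_zero, mul_one, Finset.sum_ite_eq', Finset.mem_univ, if_true] at h4
    exact hi h4.symm

theorem nre (h : S_ends) : S_nre := by
  classical
  intro n E _ _ P x y G hP hx hy hTr hmm hG hGF hreal
  by_contra hcon
  -- directions
  set A : Set (Fin n → ℚ) := {v | ∃ Gn : Gen n E, Gn.P = P ∧ Gn.x = x ∧ Gn.y = y ∧
    ∀ l, v l = (Gn.b l : ℚ) / Gn.N} with hA
  have hn : 0 < n := by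
    rcases Nat.eq_zero_or_pos n with h0 | h0
    · subst h0
      exfalso
      have h1 : G = C (G.coeff 0) := by
        rw [← vars_eq_empty_iff_eq_C]
        exact Finset.eq_empty_of_forall_notMem fun i => i.elim0
      apply hG.not_isUnit
      have h2 : G.coeff 0 ≠ 0 := by
        intro h3
        apply hG.ne_zero
        rw [h1, h3, C_0]
      rw [h1]
      exact (IsUnit.mk0 _ h2).map C
    · exact h0
  have hAI : ∀ v ∈ A, (fun l => (v l : ℂ)) ∈ Inv G := by
    rintro v ⟨Gn, h1, h2, h3, h4⟩ x' t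
    by_contra h5
    refine hcon ⟨Gn, h1, h2, h3, x', t, ?_⟩
    have h6 : ∀ l, (Gn.a l : ℂ) = (v l : ℂ) := by
      intro l
      rw [h4]
      unfold Gen.a
      push_cast
      rfl
    simp only [h6]
    exact h5
  have hspan : ∀ v ∈ Submodule.span ℚ A, (fun l => (v l : ℂ)) ∈ Inv G := by
    intro v hv
    induction hv using Submodule.span_induction with
    | mem v hv => exact hAI v hv
    | zero =>
      convert (Inv G).zero_mem using 1
      funext l
      simp
    | add v w _ _ hv hw =>
      convert (Inv G).add_mem hv hw using 1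
      funext l
      simp
    | smul c v _ hv =>
      convert (Inv G).smul_mem (c : ℂ) hv using 1
      funext l
      simp
  have hno : ∀ m : Fin n → ℤ, Transcendental (IntermediateField.adjoin ℂ (Set.range x))
      (∏ l, y l ^ m l) → ∃ a ∈ A, ∑ l, (m l : ℚ) * a l ≠ 0 := by
    intro m hm
    obtain ⟨Gn, h1, h2, h3, h4⟩ := h n E P x y hP hx hy hTr m hm
    refine ⟨fun l => (Gn.b l : ℚ) / Gn.N, ⟨Gn, h1, h2, h3, fun _ => rfl⟩, fun h5 => ?_⟩
    have h6 : ((∑ l, (m l : ℚ) * ((Gn.b l : ℚ) / Gn.N) : ℚ) : ℝ) = ∑ l, (m l : ℝ) * Gn.a l := by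
      unfold Gen.a
      push_cast
      rfl
    rw [h5] at h6
    rw [← h6] at h4
    simp at h4
  obtain ⟨m, hm0, hm⟩ := exists_normal hn A (fun m m' hlin =>
    (hmm m m' hlin).imp (hno m) (hno m'))
  obtain ⟨i, hi⟩ := Function.ne_iff.mp hm0
  have hi' : m i ≠ 0 := hi
  have hic : ((m i : ℚ) : ℂ) ≠ 0 := by exact_mod_cast hi'
  have hinv : ∀ v : Fin n → ℂ, ∑ l, (m l : ℂ) * v l = 0 → v ∈ Inv G := by
    intro v hv
    have h1 : ∀ j, (fun l => (((if l = j then m i else 0) - (if l = i then m j else 0) : ℚ) : ℂ)) ∈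
        Inv G := by
      intro j
      refine hspan (fun l => (if l = j then m i else 0) - (if l = i then m j else 0)) (hm _ ?_)
      simp only [mul_sub, Finset.sum_sub_distrib, mul_ite, mul_zero, Finset.sum_ite_eq',
        Finset.mem_univ, if_true]
      ring
    have h2 : v = ∑ j, (v j / (m i : ℂ)) •
        (fun l => (((if l = j then m i else 0) - (if l = i then m j else 0) : ℚ) : ℂ)) := by
      funext l
      rw [Finset.sum_apply]
      have h0 : ∀ j, ((v j / (m i : ℂ)) • (fun l => (((if l = j then m i else 0) -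
          (if l = i then m j else 0) : ℚ) : ℂ)) : Fin n → ℂ) l =
          (if l = j then v j / (m i : ℂ) * (m i : ℂ) else 0) -
            (if l = i then v j / (m i : ℂ) * (m j : ℂ) else 0) := by
        intro j
        rw [Pi.smul_apply, smul_eq_mul]
        by_cases h5 : l = j
        · by_cases h6 : l = i
          · rw [if_pos h5, if_pos h6, if_pos h5, if_pos h6]
            push_cast
            ring
          · rw [if_pos h5, if_neg h6, if_pos h5, if_neg h6, sub_zero, sub_zero]
        · by_cases h6 : l = i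
          · rw [if_neg h5, if_pos h6, if_neg h5, if_pos h6]
            push_cast
            ring
          · rw [if_neg h5, if_neg h6, if_neg h5, if_neg h6]
            push_cast
            ring
      rw [Finset.sum_congr rfl fun j _ => h0 j, Finset.sum_sub_distrib, Finset.sum_ite_eq,
        if_pos (Finset.mem_univ l)]
      have h3 : ∑ j, (if l = i then v j / (m i : ℂ) * (m j : ℂ) else 0) = 0 := by
        by_cases hl : l = i
        · simp only [hl, if_true]
          have h4 : ∑ j, v j / (m i : ℂ) * (m j : ℂ) = (∑ l, (m l : ℂ) * v l) / (m i : ℂ) := by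
            rw [Finset.sum_div]
            exact Finset.sum_congr rfl fun j _ => by ring
          rw [h4, hv, zero_div]
        · simp [hl]
      rw [h3, sub_zero]
      field_simp
    rw [h2]
    exact (Inv G).sum_mem fun j _ => (Inv G).smul_mem _ (h1 j)
  obtain ⟨c, r, hc, hGc⟩ := exists_affine G hG (fun l => (m l : ℂ)) i hic hinv
  have hr := no_nonreal_factor (homogeneousComponent_isHomogeneous P.totalDegree P)
    (homog_ne_zero hP.ne_zero) (fun l => (m l : ℂ)) i hic c r hGc hGF
  apply hreal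
  refine ⟨c⁻¹, inv_ne_zero hc, fun s => ?_⟩
  have h1 : C c⁻¹ * G = ∑ l, C ((m l : ℚ) : ℂ) * X l := by
    rw [hGc, hr, C_0, sub_zero, ← mul_assoc, ← C_mul, inv_mul_cancel₀ hc, C_1, one_mul]
  rw [h1, coeff_sum, Complex.im_sum]
  refine Finset.sum_eq_zero fun l _ => ?_
  rw [coeff_C_mul, coeff_X]
  split_ifs <;> simp

end Pool.Agent.Q98.EG
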